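import Pool.Agent.Lib.MP_2f875b_anE.Ode

/-! # The scalar equation along a linear foliation

`S' = g(p + τ w + S v) + c`: existence, comparison, continuity in `c`. -/

set_option autoImplicit false

open Set Filter Topology NNReal

namespace Clo

variable {E : Type*} [NormedAddCommGroup E] [NormedSpace ℝ E]

/-- `S` solves the scalar equation. -/
def Sca (p w v : E) (g : E → ℝ) (c : ℝ) (S : ℝ → ℝ) : Prop :=
  S 0 = 0 ∧ ∀ τ, HasDerivAt S (g (p + τ • w + S τ • v) + c) τ

theorem aff_lip (p w v : E) : LipschitzWith (‖w‖₊ + ‖v‖₊)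
    (fun q : ℝ × ℝ => p + q.1 • w + q.2 • v) := by
  refine LipschitzWith.of_dist_le_mul fun a b => ?_
  rw [dist_eq_norm, dist_eq_norm]
  have e : p + a.1 • w + a.2 • v - (p + b.1 • w + b.2 • v) =
      (a.1 - b.1) • w + (a.2 - b.2) • v := by
    rw [sub_smul, sub_smul]; abel
  rw [e]
  have h1 : ‖a.1 - b.1‖ ≤ ‖a - b‖ := norm_fst_le (a - b)
  have h2 : ‖a.2 - b.2‖ ≤ ‖a - b‖ := norm_snd_le (a - b)
  refine (norm_add_le _ _).trans ?_
  rw [norm_smul, norm_smul]
  push_cast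
  nlinarith [norm_nonneg w, norm_nonneg v, mul_le_mul_of_nonneg_right h1 (norm_nonneg w),
    mul_le_mul_of_nonneg_right h2 (norm_nonneg v)]

theorem sca_exists (p w v : E) {g : E → ℝ} {L : ℝ≥0} (hg : LipschitzWith L g) {G : ℝ}
    (hG : ∀ x, |g x| ≤ G) (c : ℝ) : ∃ S, Sca p w v g c S := by
  have h1 : LipschitzWith (max 0 (L * (‖w‖₊ + ‖v‖₊)))
      (fun q : ℝ × ℝ => ((1 : ℝ), g (p + q.1 • w + q.2 • v) + c)) := by
    refine (LipschitzWith.const (1 : ℝ)).prodMk ?_
    have := (hg.comp (aff_lip p w v))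
    refine LipschitzWith.of_dist_le_mul fun a b => ?_
    have h2 := this.dist_le_mul a b
    simpa [dist_add_right, Function.comp] using h2
  have h2 : ∀ q : ℝ × ℝ, ‖((1 : ℝ), g (p + q.1 • w + q.2 • v) + c)‖ ≤ 1 + (G + |c|) := by
    intro q
    rw [Prod.norm_def]
    have hG0 : 0 ≤ G := (abs_nonneg _).trans (hG p)
    refine max_le ?_ ?_
    · simp only [norm_one]
      have := abs_nonneg c
      linarith
    · show ‖g (p + q.1 • w + q.2 • v) + c‖ ≤ _
      rw [Real.norm_eq_abs]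
      have := abs_add_le (g (p + q.1 • w + q.2 • v)) c
      have := hG (p + q.1 • w + q.2 • v)
      linarith
  obtain ⟨Z, hZ0, hZ⟩ := exists_global h1 h2 ((0 : ℝ), (0 : ℝ))
  have hf : ∀ t, HasDerivAt (fun t => (Z t).1) 1 t := fun t => (hZ t).fst
  have hs : ∀ t, HasDerivAt (fun t => (Z t).2)
      (g (p + (Z t).1 • w + (Z t).2 • v) + c) t := fun t => (hZ t).snd
  have h1' : ∀ t, (Z t).1 = t := by
    intro t
    have hd : ∀ t, HasDerivAt (fun t => (Z t).1 - t) 0 t := fun t => by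
      have h := (hf t).fun_sub (hasDerivAt_id' t)
      rwa [sub_self] at h
    have := is_const_of_deriv_eq_zero (fun t => (hd t).differentiableAt)
      (fun t => (hd t).deriv) t 0
    simp only [hZ0] at this
    linarith
  refine ⟨fun t => (Z t).2, by simp [hZ0], fun t => ?_⟩
  have := hs t
  rwa [h1' t] at this

theorem sca_close {p w v : E} {g : E → ℝ} {L : ℝ≥0} (hg : LipschitzWith L g) {c c' : ℝ}
    {S S' : ℝ → ℝ} (hS : Sca p w v g c S) (hS' : Sca p w v g c' S') {T : ℝ} (hT : 0 ≤ T) :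
    |S T - S' T| ≤ gronwallBound 0 (L * ‖v‖₊ : ℝ≥0) |c - c'| T := by
  have hlip : ∀ τ : ℝ, LipschitzWith (L * ‖v‖₊) (fun x : ℝ => g (p + τ • w + x • v) + c) := by
    intro τ
    refine LipschitzWith.of_dist_le_mul fun a b => ?_
    have h1 := hg.dist_le_mul (p + τ • w + a • v) (p + τ • w + b • v)
    have e : dist (p + τ • w + a • v) (p + τ • w + b • v) = dist a b * ‖v‖ := by
      rw [dist_eq_norm, dist_eq_norm, add_sub_add_left_eq_sub, ← sub_smul, norm_smul]
    rw [e] at h1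
    rw [dist_add_right]
    push_cast
    calc _ ≤ _ := h1
      _ = _ := by ring
  have := dist_le_of_approx_trajectories_ODE (v := fun τ x => g (p + τ • w + x • v) + c)
    (K := L * ‖v‖₊) (f := S) (g := S') (f' := fun τ => g (p + τ • w + S τ • v) + c)
    (g' := fun τ => g (p + τ • w + S' τ • v) + c') (a := 0) (b := T) (δ := 0) (εf := 0)
    (εg := |c - c'|) hlip
    (fun t _ => (hS.2 t).continuousAt.continuousWithinAt)
    (fun t _ => (hS.2 t).hasDerivWithinAt)
    (fun t _ => by simp)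
    (fun t _ => (hS'.2 t).continuousAt.continuousWithinAt)
    (fun t _ => (hS'.2 t).hasDerivWithinAt)
    (fun t _ => by rw [dist_add_left, dist_comm, Real.dist_eq])
    (by rw [hS.1, hS'.1, dist_self]) T ⟨hT, le_rfl⟩
  rwa [Real.dist_eq, zero_add, sub_zero] at this

theorem sca_cont {p w v : E} {g : E → ℝ} {L : ℝ≥0} (hg : LipschitzWith L g)
    {S : ℝ → ℝ → ℝ} (hS : ∀ c, Sca p w v g c (S c)) {T : ℝ} (hT : 0 ≤ T) :
    Continuous fun c => S c T := by
  rw [continuous_iff_continuousAt]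
  intro c
  rw [ContinuousAt, tendsto_iff_dist_tendsto_zero]
  have h1 : Tendsto (fun c' : ℝ => gronwallBound 0 (L * ‖v‖₊ : ℝ≥0) |c' - c| T) (𝓝 c) (𝓝 0) := by
    have h2 := (gronwallBound_continuous_ε 0 ((L * ‖v‖₊ : ℝ≥0) : ℝ) T).tendsto 0
    rw [gronwallBound_ε0_δ0] at h2
    refine h2.comp ?_
    have : Continuous fun c' : ℝ => |c' - c| := by fun_prop
    simpa using this.tendsto c
  refine squeeze_zero (fun _ => dist_nonneg) (fun c' => ?_) h1
  rw [Real.dist_eq]
  exact sca_close hg (hS c') (hS c) hT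

/-- Comparison along a reparametrised orbit. -/
theorem sca_compare {p w v : E} {g a : E → ℝ} {L : ℝ≥0} (hg : LipschitzWith L g)
    (ha : ∀ x, 0 < a x) {τ σ : ℝ → ℝ} {γ : ℝ → E}
    (hγ : ∀ t, γ t = p + τ t • w + σ t • v)
    (hτ0 : τ 0 = 0) (hσ0 : σ 0 = 0) (hτ : ∀ t, HasDerivAt τ (a (γ t)) t)
    (hσ : ∀ t, HasDerivAt σ (a (γ t) * g (γ t)) t) {T : ℝ} (hT : 0 < T)
    (u : E) {c : ℝ} {S : ℝ → ℝ} (hS : Sca p (w + u) v g c S) :
    (L * (τ T * ‖u‖) < c → σ T ≤ S (τ T)) ∧ (c < -(L * (τ T * ‖u‖)) → S (τ T) ≤ σ T) := by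
  have hmono : StrictMono τ := strictMono_of_deriv_pos fun t => by
    rw [(hτ t).deriv]; exact ha _
  have hB : ∀ t, HasDerivAt (fun t => S (τ t))
      ((g (p + τ t • (w + u) + S (τ t) • v) + c) * a (γ t)) t := fun t =>
    (hS.2 (τ t)).comp t (hτ t)
  have hpos : ∀ t, 0 ≤ t → 0 ≤ τ t := fun t ht => by
    have := hmono.monotone ht
    rwa [hτ0] at this
  have hdist : ∀ t ∈ Ico 0 T, ∀ x : ℝ, σ t = x →
      |g (p + τ t • (w + u) + x • v) - g (γ t)| ≤ L * (τ T * ‖u‖) := by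
    intro t ht x hx
    have h1 := hg.dist_le_mul (p + τ t • (w + u) + x • v) (γ t)
    rw [Real.dist_eq, dist_eq_norm] at h1
    have e : p + τ t • (w + u) + x • v - γ t = τ t • u := by
      rw [hγ, ← hx, smul_add]; abel
    rw [e, norm_smul, Real.norm_eq_abs, abs_of_nonneg (hpos t ht.1)] at h1
    have h2 : τ t ≤ τ T := hmono.monotone ht.2.le
    have h3 : (L : ℝ) * (τ t * ‖u‖) ≤ L * (τ T * ‖u‖) := by gcongr
    exact h1.trans h3
  have hT' : T ∈ Icc 0 T := ⟨hT.le, le_rfl⟩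
  constructor
  · intro hc
    refine image_le_of_deriv_right_lt_deriv_boundary' (f := σ) (B := fun t => S (τ t))
      (f' := fun t => a (γ t) * g (γ t))
      (B' := fun t => (g (p + τ t • (w + u) + S (τ t) • v) + c) * a (γ t))
      (fun t _ => (hσ t).continuousAt.continuousWithinAt)
      (fun t _ => (hσ t).hasDerivWithinAt) (by rw [hσ0, hτ0, hS.1])
      (fun t _ => (hB t).continuousAt.continuousWithinAt)
      (fun t _ => (hB t).hasDerivWithinAt) ?_ hT'
    intro t ht hx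
    have h1 := hdist t ht _ hx
    have h2 := (abs_le.1 h1).1
    rw [mul_comm]
    exact mul_lt_mul_of_pos_right (by linarith) (ha _)
  · intro hc
    refine image_le_of_deriv_right_lt_deriv_boundary' (B := σ) (f := fun t => S (τ t))
      (B' := fun t => a (γ t) * g (γ t))
      (f' := fun t => (g (p + τ t • (w + u) + S (τ t) • v) + c) * a (γ t))
      (fun t _ => (hB t).continuousAt.continuousWithinAt)
      (fun t _ => (hB t).hasDerivWithinAt) (by rw [hσ0, hτ0, hS.1])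
      (fun t _ => (hσ t).continuousAt.continuousWithinAt)
      (fun t _ => (hσ t).hasDerivWithinAt) ?_ hT'
    intro t ht hx
    have h1 := hdist t ht _ hx.symm
    have h2 := (abs_le.1 h1).2
    rw [mul_comm (a (γ t))]
    exact mul_lt_mul_of_pos_right (by linarith) (ha _)

/-- The scalar solution which ends at a prescribed point. -/
theorem sca_hit {p w v : E} {g a : E → ℝ} {L : ℝ≥0} (hg : LipschitzWith L g) {G : ℝ}
    (hG : ∀ x, |g x| ≤ G)
    (ha : ∀ x, 0 < a x) {τ σ : ℝ → ℝ} {γ : ℝ → E}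
    (hγ : ∀ t, γ t = p + τ t • w + σ t • v)
    (hτ0 : τ 0 = 0) (hσ0 : σ 0 = 0) (hτ : ∀ t, HasDerivAt τ (a (γ t)) t)
    (hσ : ∀ t, HasDerivAt σ (a (γ t) * g (γ t)) t) {T : ℝ} (hT : 0 < T)
    (u : E) {η : ℝ} (hη : L * (τ T * ‖u‖) < η) :
    ∃ c, |c| ≤ η ∧ ∃ S, Sca p (w + u) v g c S ∧ S (τ T) = σ T := by
  choose S hS using fun c => sca_exists p (w + u) v hg hG c
  have hmono : StrictMono τ := strictMono_of_deriv_pos fun t => by
    rw [(hτ t).deriv]; exact ha _
  have hτT : 0 ≤ τ T := by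
    have := hmono.monotone hT.le
    rwa [hτ0] at this
  have hcont := sca_cont hg hS hτT
  have hη0 : 0 ≤ η := le_trans (by positivity) hη.le
  have h1 := (sca_compare hg ha hγ hτ0 hσ0 hτ hσ hT u (hS η)).1 hη
  have h2 := (sca_compare hg ha hγ hτ0 hσ0 hτ hσ hT u (hS (-η))).2 (by linarith)
  have := intermediate_value_Icc (a := -η) (b := η) (by linarith) hcont.continuousOn
  obtain ⟨c, hc, hc2⟩ := this ⟨h2, h1⟩
  exact ⟨c, abs_le.2 hc, S c, hS c, hc2⟩

end Clo
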