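import Mathlib

/-! # The closing property on the torus `ℝ^n/ℤ^n`: definitions -/

set_option autoImplicit false

namespace Clo

/-- The integer vector `m` as a point of `ℝ^n`. -/
def lat {n : ℕ} (m : Fin n → ℤ) : EuclideanSpace ℝ (Fin n) := WithLp.toLp 2 fun i => (m i : ℝ)

/-- A `C^r` vector field on the torus `ℝ^n/ℤ^n`, as a `ℤ^n`-periodic map. -/
structure TorusField {n : ℕ} (r : WithTop ℕ∞)
    (X : EuclideanSpace ℝ (Fin n) → EuclideanSpace ℝ (Fin n)) : Prop where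
  smooth : ContDiff ℝ r X
  periodic : ∀ x m, X (x + lat m) = X x

/-- `γ` is the solution of `γ' = X(γ)` with `γ(0) = p`, on the whole line. -/
def OrbitOf {n : ℕ} (X : EuclideanSpace ℝ (Fin n) → EuclideanSpace ℝ (Fin n))
    (p : EuclideanSpace ℝ (Fin n)) (γ : ℝ → EuclideanSpace ℝ (Fin n)) : Prop :=
  γ 0 = p ∧ ∀ t, HasDerivAt γ (X (γ t)) t

/-- The point of the torus given by `p` lies in the `ω`-limit set of its own orbit. -/
def Recurrent {n : ℕ} (X : EuclideanSpace ℝ (Fin n) → EuclideanSpace ℝ (Fin n))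
    (p : EuclideanSpace ℝ (Fin n)) : Prop :=
  ∃ γ, OrbitOf X p γ ∧ ∀ ε : ℝ, 0 < ε → ∀ T : ℝ, ∃ t, T ≤ t ∧ ∃ m, ‖γ t - (p + lat m)‖ < ε

/-- The point of the torus given by `p` is not a zero of `Y` and its orbit is periodic. -/
def OnPeriodicOrbit {n : ℕ} (Y : EuclideanSpace ℝ (Fin n) → EuclideanSpace ℝ (Fin n))
    (p : EuclideanSpace ℝ (Fin n)) : Prop :=
  Y p ≠ 0 ∧ ∃ γ, OrbitOf Y p γ ∧ ∃ T : ℝ, 0 < T ∧ ∃ m, ∀ t, γ (t + T) = γ t + lat m

/-- `Y` is `ε`-close to `X` in the `C^s` sense. -/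
def CsClose {n : ℕ} (s : ℕ) (ε : ℝ)
    (X Y : EuclideanSpace ℝ (Fin n) → EuclideanSpace ℝ (Fin n)) : Prop :=
  ∀ j ≤ s, ∀ x, ‖iteratedFDeriv ℝ j (fun x => Y x - X x) x‖ < ε

end Clo
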