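import Pool.Agent.Lib.MP_2f875b_anE.Torus

/-! # Closing fields tangent to a linear foliation by planes: the invariant statement -/

set_option autoImplicit false

open Set Filter Topology NNReal
open scoped InnerProductSpace

namespace Clo

theorem decomp {n : ℕ} {v w x : EuclideanSpace ℝ (Fin n)}
    (hx : x ∈ Submodule.span ℝ {v, w}) :
    x = (⟪w - (⟪v, w⟫_ℝ / ‖v‖ ^ 2) • v, x⟫_ℝ / ‖w - (⟪v, w⟫_ℝ / ‖v‖ ^ 2) • v‖ ^ 2) •
      (w - (⟪v, w⟫_ℝ / ‖v‖ ^ 2) • v) + (⟪v, x⟫_ℝ / ‖v‖ ^ 2) • v := by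
  obtain ⟨α, β, rfl⟩ := Submodule.mem_span_pair.1 hx
  set κ : ℝ := ⟪v, w⟫_ℝ / ‖v‖ ^ 2 with hκ
  set w1 : EuclideanSpace ℝ (Fin n) := w - κ • v with hw1
  have hw : w = w1 + κ • v := by rw [hw1]; abel
  have horth : ⟪w1, v⟫_ℝ = 0 := by
    rw [hw1, inner_sub_left, inner_smul_left, real_inner_self_eq_norm_sq, hκ]
    by_cases hv : v = 0
    · simp [hv]
    · have : ‖v‖ ^ 2 ≠ 0 := pow_ne_zero 2 (norm_ne_zero_iff.2 hv)
      rw [real_inner_comm w v]
      simp only [RCLike.conj_to_real]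
      field_simp
      ring
  have hx2 : α • v + β • w = β • w1 + (α + β * κ) • v := by
    rw [hw, smul_add, smul_smul, add_smul]
    abel
  rw [hx2]
  have e1 : (⟪w1, β • w1 + (α + β * κ) • v⟫_ℝ / ‖w1‖ ^ 2) • w1 = β • w1 := by
    by_cases h : w1 = 0
    · simp [h]
    · have h2 : ‖w1‖ ^ 2 ≠ 0 := pow_ne_zero 2 (norm_ne_zero_iff.2 h)
      rw [inner_add_right, inner_smul_right, inner_smul_right, horth, mul_zero, add_zero,
        real_inner_self_eq_norm_sq, mul_div_assoc, div_self h2, mul_one]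
  have e2 : (⟪v, β • w1 + (α + β * κ) • v⟫_ℝ / ‖v‖ ^ 2) • v = (α + β * κ) • v := by
    by_cases h : v = 0
    · simp [h]
    · have h2 : ‖v‖ ^ 2 ≠ 0 := pow_ne_zero 2 (norm_ne_zero_iff.2 h)
      rw [inner_add_right, inner_smul_right, inner_smul_right, real_inner_comm, horth, mul_zero,
        zero_add, real_inner_self_eq_norm_sq, mul_div_assoc, div_self h2, mul_one]
  rw [e1, e2]

theorem closing {n : ℕ} {r : WithTop ℕ∞} (hr : 1 ≤ r) {v w : EuclideanSpace ℝ (Fin n)}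
    {X : EuclideanSpace ℝ (Fin n) → EuclideanSpace ℝ (Fin n)} (hX : TorusField r X)
    (htan : ∀ x, X x ∈ Submodule.span ℝ {v, w}) (htr : ∀ x, X x ∉ Submodule.span ℝ {v})
    {p : EuclideanSpace ℝ (Fin n)} (hp : Recurrent X p) (s : ℕ) (hs : (s : WithTop ℕ∞) ≤ r)
    {ε : ℝ} (hε : 0 < ε) :
    ∃ Y, TorusField r Y ∧ CsClose s ε X Y ∧ OnPeriodicOrbit Y p := by
  set w1 : EuclideanSpace ℝ (Fin n) := w - (⟪v, w⟫_ℝ / ‖v‖ ^ 2) • v with hw1
  set a : EuclideanSpace ℝ (Fin n) → ℝ := fun x => ⟪w1, X x⟫_ℝ / ‖w1‖ ^ 2 with ha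
  set b : EuclideanSpace ℝ (Fin n) → ℝ := fun x => ⟪v, X x⟫_ℝ / ‖v‖ ^ 2 with hb
  have hac : ContDiff ℝ r a := (contDiff_const.inner ℝ hX.smooth).div_const _
  have hbc : ContDiff ℝ r b := (contDiff_const.inner ℝ hX.smooth).div_const _
  have hap : ∀ x m, a (x + lat m) = a x := fun x m => by simp only [ha, hX.periodic]
  have hbp : ∀ x m, b (x + lat m) = b x := fun x m => by simp only [hb, hX.periodic]
  have hXab : ∀ x, X x = a x • w1 + b x • v := fun x => decomp (htan x)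
  have hX0 : ∀ x, X x ≠ 0 := fun x h => htr x (by rw [h]; exact Submodule.zero_mem _)
  have ha0 : ∀ x, a x ≠ 0 := by
    intro x h
    apply htr x
    rw [hXab, h, zero_smul, zero_add]
    exact Submodule.smul_mem _ _ (Submodule.mem_span_singleton_self v)
  by_cases hpos : ∀ x, 0 < a x
  · exact close_pos hr hX hac hbc hap hbp hXab hX0 hpos hp s hs hε
  · have hneg : ∀ x, a x < 0 := by
      intro x
      by_contra hcon
      push Not at hcon
      obtain ⟨y, hy⟩ := not_forall.1 hpos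
      have := mem_range_of_exists_le_of_exists_ge hac.continuous ⟨y, not_lt.1 hy⟩ ⟨x, hcon⟩
      obtain ⟨z, hz⟩ := this
      exact ha0 z hz
    refine close_pos (v := v) (w := -w1) (a := fun x => -a x) hr hX hac.neg hbc
      (fun x m => by simp only [hap]) hbp (fun x => ?_) hX0 (fun x => neg_pos.2 (hneg x))
      hp s hs hε
    rw [smul_neg, neg_smul, neg_neg]
    exact hXab x

end Clo
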