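import Mathlib

/-! # Global solutions of a bounded Lipschitz vector field -/

set_option autoImplicit false

open Set Filter Topology NNReal

namespace Clo

variable {V : Type*} [NormedAddCommGroup V] [NormedSpace ℝ V] [CompleteSpace V]

theorem exists_sol {f : V → V} {K : ℝ≥0} (hf : LipschitzWith K f) {B : ℝ}
    (hB : ∀ x, ‖f x‖ ≤ B) (x : V) {a : ℝ} (ha : 0 < a) :
    ∃ Z : ℝ → V, Z 0 = x ∧ ∀ t ∈ Ioo (-a) a, HasDerivAt Z (f (Z t)) t := by
  have hB0 : 0 ≤ B := (norm_nonneg _).trans (hB 0)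
  have h0 : (0 : ℝ) ∈ Icc (-a) a := ⟨by linarith, ha.le⟩
  have hP : IsPicardLindelof (fun _ : ℝ => f) (tmin := -a) (tmax := a) ⟨0, h0⟩ x
      (Real.toNNReal (B * a)) 0 (Real.toNNReal B) K := by
    refine ⟨fun t _ => hf.lipschitzOnWith, fun y _ => continuousOn_const, fun t _ y _ => ?_, ?_⟩
    · rw [Real.coe_toNNReal B hB0]
      exact hB y
    · rw [Real.coe_toNNReal B hB0, Real.coe_toNNReal _ (mul_nonneg hB0 ha.le)]
      simp
  obtain ⟨Z, hZ0, hZ⟩ := hP.exists_eq_forall_mem_Icc_hasDerivWithinAt₀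
  exact ⟨Z, hZ0, fun t ht =>
    (hZ t (Ioo_subset_Icc_self ht)).hasDerivAt (Icc_mem_nhds ht.1 ht.2)⟩

theorem exists_global {f : V → V} {K : ℝ≥0} (hf : LipschitzWith K f) {B : ℝ}
    (hB : ∀ x, ‖f x‖ ≤ B) (x : V) :
    ∃ Z : ℝ → V, Z 0 = x ∧ ∀ t, HasDerivAt Z (f (Z t)) t := by
  have h1 : ∀ N : ℕ, ∃ Z : ℝ → V, Z 0 = x ∧
      ∀ t ∈ Ioo (-((N : ℝ) + 1)) ((N : ℝ) + 1), HasDerivAt Z (f (Z t)) t := fun N =>
    exists_sol hf hB x (by positivity)
  choose Z hZ0 hZ using h1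
  have huniq : ∀ (N M : ℕ) (t : ℝ), |t| < (N : ℝ) + 1 → |t| < (M : ℝ) + 1 → Z N t = Z M t := by
    have key : ∀ (N M : ℕ) (t : ℝ), N ≤ M → |t| < (N : ℝ) + 1 → Z N t = Z M t := by
      intro N M t hNM ht
      have hNM' : (N : ℝ) ≤ M := by exact_mod_cast hNM
      have h0 : (0 : ℝ) ∈ Ioo (-((N : ℝ) + 1)) ((N : ℝ) + 1) := by
        constructor
        · have : (0 : ℝ) ≤ N := Nat.cast_nonneg N
          linarith
        · positivity
      have := ODE_solution_unique_of_mem_Ioo (v := fun _ => f) (s := fun _ => univ) (K := K)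
        (a := -((N : ℝ) + 1)) (b := (N : ℝ) + 1) (f := Z N) (g := Z M) (t₀ := 0)
        (fun t _ => hf.lipschitzOnWith) h0
        (fun t ht => ⟨hZ N t ht, trivial⟩)
        (fun t ht => ⟨hZ M t ⟨by linarith [ht.1], by linarith [ht.2]⟩, trivial⟩)
        ((hZ0 N).trans (hZ0 M).symm)
      exact this (abs_lt.1 ht)
    intro N M t h1 h2
    rcases le_total N M with h | h
    · exact key N M t h h1
    · exact (key M N t h h2).symm
  refine ⟨fun t => Z ⌈|t|⌉₊ t, ?_, fun t => ?_⟩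
  · exact hZ0 _
  · have hlt : ∀ t : ℝ, |t| < (⌈|t|⌉₊ : ℝ) + 1 := fun t =>
      lt_of_le_of_lt (Nat.le_ceil _) (lt_add_one _)
    set M : ℕ := ⌈|t|⌉₊ with hM
    have hmem : t ∈ Ioo (-((M : ℝ) + 1)) ((M : ℝ) + 1) := abs_lt.1 (hlt t)
    have hd := hZ M t hmem
    refine hd.congr_of_eventuallyEq ?_
    have hopen : Ioo (-((M : ℝ) + 1)) ((M : ℝ) + 1) ∈ 𝓝 t := isOpen_Ioo.mem_nhds hmem
    filter_upwards [hopen] with t' ht'
    exact huniq _ _ t' (hlt t') (abs_lt.2 ht')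

omit [CompleteSpace V] in
theorem sol_unique {f : V → V} {K : ℝ≥0} (hf : LipschitzWith K f) {y z : ℝ → V}
    (hy : ∀ t, HasDerivAt y (f (y t)) t) (hz : ∀ t, HasDerivAt z (f (z t)) t)
    (h0 : y 0 = z 0) : y = z :=
  ODE_solution_unique_univ (v := fun _ => f) (s := fun _ => univ) (K := K) (t₀ := 0)
    (fun _ => hf.lipschitzOnWith) (fun t => ⟨hy t, trivial⟩) (fun t => ⟨hz t, trivial⟩) h0

end Clo
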