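import Pool.Agent.Lib.MP_2f875b_anE.Core
import Pool.Agent.Lib.MP_2f875b_anE.Defs

/-! # Closing fields tangent to a linear foliation by planes -/

set_option autoImplicit false

open Set Filter Topology NNReal

namespace Clo

theorem lat_red {n : ℕ} (x : EuclideanSpace ℝ (Fin n)) :
    ∃ m : Fin n → ℤ, ‖x + lat m‖ ≤ Real.sqrt n := by
  refine ⟨fun i => -⌊x i⌋, ?_⟩
  rw [EuclideanSpace.norm_eq]
  apply Real.sqrt_le_sqrt
  have h : ∀ i : Fin n, ‖(x + lat fun i => -⌊x i⌋) i‖ ^ 2 ≤ 1 := by
    intro i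
    have e : (x + lat fun i => -⌊x i⌋) i = Int.fract (x i) := by
      simp [lat, Int.fract, sub_eq_add_neg]
    rw [e, Real.norm_eq_abs, abs_of_nonneg (Int.fract_nonneg _)]
    have := Int.fract_nonneg (x i)
    have := (Int.fract_lt_one (x i)).le
    nlinarith
  calc ∑ i, ‖(x + lat fun i => -⌊x i⌋) i‖ ^ 2 ≤ ∑ _i : Fin n, (1 : ℝ) :=
        Finset.sum_le_sum fun i _ => h i
    _ = n := by simp

theorem per_bdd {n : ℕ} {F : Type*} [NormedAddCommGroup F] {f : EuclideanSpace ℝ (Fin n) → F}
    (hc : Continuous f) (hp : ∀ x m, f (x + lat m) = f x) : ∃ B : ℝ, ∀ x, ‖f x‖ ≤ B := by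
  obtain ⟨B, hB⟩ := (isCompact_closedBall (0 : EuclideanSpace ℝ (Fin n))
    (Real.sqrt n)).exists_bound_of_continuousOn hc.continuousOn
  refine ⟨B, fun x => ?_⟩
  obtain ⟨m, hm⟩ := lat_red x
  rw [← hp x m]
  exact hB _ (by simpa using hm)

theorem per_pos {n : ℕ} {a : EuclideanSpace ℝ (Fin n) → ℝ}
    (hc : Continuous a) (hp : ∀ x m, a (x + lat m) = a x) (h0 : ∀ x, 0 < a x) :
    ∃ A : ℝ, 0 < A ∧ ∀ x, A ≤ a x := by
  obtain ⟨y, -, hy⟩ := (isCompact_closedBall (0 : EuclideanSpace ℝ (Fin n))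
    (Real.sqrt n)).exists_isMinOn ⟨0, by simp [Real.sqrt_nonneg]⟩ hc.continuousOn
  refine ⟨a y, h0 y, fun x => ?_⟩
  obtain ⟨m, hm⟩ := lat_red x
  rw [← hp x m]
  exact hy (by simpa using hm)

theorem per_iter {n : ℕ} {F : Type*} [NormedAddCommGroup F] [NormedSpace ℝ F]
    {f : EuclideanSpace ℝ (Fin n) → F} (hp : ∀ x m, f (x + lat m) = f x) (j : ℕ) (x) (m) :
    iteratedFDeriv ℝ j f (x + lat m) = iteratedFDeriv ℝ j f x := by
  rw [← iteratedFDeriv_comp_add_right]
  congr 1
  funext z
  exact hp z m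

theorem per_lip {n : ℕ} {F : Type*} [NormedAddCommGroup F] [NormedSpace ℝ F]
    {f : EuclideanSpace ℝ (Fin n) → F} (hc : ContDiff ℝ 1 f)
    (hp : ∀ x m, f (x + lat m) = f x) : ∃ L : ℝ≥0, LipschitzWith L f := by
  have h1 : ∀ x m, fderiv ℝ f (x + lat m) = fderiv ℝ f x := by
    intro x m
    rw [← fderiv_comp_add_right]
    congr 1
    funext z
    exact hp z m
  obtain ⟨B, hB⟩ := per_bdd (hc.continuous_fderiv one_ne_zero) h1
  have hB0 : 0 ≤ B := (norm_nonneg _).trans (hB 0)
  refine ⟨⟨B, hB0⟩, lipschitzWith_of_nnnorm_fderiv_le (hc.differentiable one_ne_zero) fun x => ?_⟩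
  exact hB x

theorem path_lip {n : ℕ} {a : EuclideanSpace ℝ (Fin n) → ℝ} {La K : ℝ≥0}
    (hLa : LipschitzWith La a) (p w v : EuclideanSpace ℝ (Fin n)) {S : ℝ → ℝ}
    (hS : LipschitzWith K S) :
    ∃ K' : ℝ≥0, LipschitzWith K' (fun θ : ℝ => a (p + θ • w + S θ • v)) := by
  refine ⟨La * (‖w‖₊ + K * ‖v‖₊), LipschitzWith.of_dist_le_mul fun x y => ?_⟩
  have h1 := hLa.dist_le_mul (p + x • w + S x • v) (p + y • w + S y • v)
  have h2 := hS.dist_le_mul x y
  rw [Real.dist_eq] at h2
  have e : p + x • w + S x • v - (p + y • w + S y • v) = (x - y) • w + (S x - S y) • v := by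
    rw [sub_smul, sub_smul]; abel
  have h3 : dist (p + x • w + S x • v) (p + y • w + S y • v) ≤
      dist x y * ‖w‖ + K * dist x y * ‖v‖ := by
    rw [dist_eq_norm, e]
    refine (norm_add_le _ _).trans ?_
    rw [norm_smul, norm_smul, Real.norm_eq_abs, Real.norm_eq_abs, ← Real.dist_eq x y]
    have := mul_le_mul_of_nonneg_right h2 (norm_nonneg v)
    linarith
  refine h1.trans ?_
  push_cast
  calc (La : ℝ) * dist (p + x • w + S x • v) (p + y • w + S y • v)
      ≤ La * (dist x y * ‖w‖ + K * dist x y * ‖v‖) := by gcongr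
    _ = _ := by ring

/-- Closing when the component `a` is positive. -/
theorem close_pos {n : ℕ} {r : WithTop ℕ∞} (hr : 1 ≤ r) {v w : EuclideanSpace ℝ (Fin n)}
    {X : EuclideanSpace ℝ (Fin n) → EuclideanSpace ℝ (Fin n)} (hX : TorusField r X)
    {a b : EuclideanSpace ℝ (Fin n) → ℝ} (ha : ContDiff ℝ r a) (hb : ContDiff ℝ r b)
    (hap : ∀ x m, a (x + lat m) = a x) (hbp : ∀ x m, b (x + lat m) = b x)
    (hXab : ∀ x, X x = a x • w + b x • v) (hX0 : ∀ x, X x ≠ 0) (ha0 : ∀ x, 0 < a x)
    {p : EuclideanSpace ℝ (Fin n)} (hp : Recurrent X p) (s : ℕ) (hs : (s : WithTop ℕ∞) ≤ r)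
    {ε : ℝ} (hε : 0 < ε) :
    ∃ Y, TorusField r Y ∧ CsClose s ε X Y ∧ OnPeriodicOrbit Y p := by
  -- the slope `g = b / a`
  set g : EuclideanSpace ℝ (Fin n) → ℝ := fun x => b x / a x with hg
  have hgc : ContDiff ℝ r g := hb.div ha fun x => (ha0 x).ne'
  have hgp : ∀ x m, g (x + lat m) = g x := fun x m => by
    show b (x + lat m) / a (x + lat m) = b x / a x
    rw [hap, hbp]
  have hba : ∀ x, b x = a x * g x := fun x => by
    show b x = a x * (b x / a x)
    rw [mul_div_cancel₀ _ (ha0 x).ne']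
  obtain ⟨L, hL⟩ := per_lip (hgc.of_le hr) hgp
  obtain ⟨G, hG⟩ := per_bdd hgc.continuous hgp
  obtain ⟨La, hLa⟩ := per_lip (ha.of_le hr) hap
  obtain ⟨A, hA⟩ := per_bdd ha.continuous hap
  obtain ⟨a0, ha0p, ha0l⟩ := per_pos ha.continuous hap ha0
  obtain ⟨x0, hx0p, hx0l⟩ := per_pos (a := fun x => ‖X x‖) hX.smooth.continuous.norm
    (fun x m => by simp only [hX.periodic]) (fun x => norm_pos_iff.2 (hX0 x))
  have hA0 : 0 ≤ A := (norm_nonneg _).trans (hA 0)
  -- bounds for the derivatives of `a`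
  have hD : ∃ D : ℝ, 0 < D ∧ ∀ j ≤ s, ∀ x, ‖iteratedFDeriv ℝ j a x‖ ≤ D := by
    have h1 : ∀ j : ℕ, ∃ B : ℝ, j ≤ s → ∀ x, ‖iteratedFDeriv ℝ j a x‖ ≤ B := by
      intro j
      by_cases hj : j ≤ s
      · obtain ⟨B, hB⟩ := per_bdd (f := iteratedFDeriv ℝ j a)
          (ha.continuous_iteratedFDeriv (le_trans (by exact_mod_cast hj) hs))
          (fun x m => per_iter hap j x m)
        exact ⟨B, fun _ => hB⟩
      · exact ⟨0, fun h => absurd h hj⟩
    choose B hB using h1
    refine ⟨1 + ∑ j ∈ Finset.range (s + 1), |B j|, by positivity, fun j hj x => ?_⟩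
    have h2 := hB j hj x
    have h3 : |B j| ≤ ∑ j ∈ Finset.range (s + 1), |B j| :=
      Finset.single_le_sum (f := fun j => |B j|) (fun _ _ => abs_nonneg _)
        (Finset.mem_range.2 (by omega))
    have h4 := le_abs_self (B j)
    linarith
  obtain ⟨D, hD0, hD⟩ := hD
  -- size of the perturbation
  set δ : ℝ := min (ε / (2 * D)) (x0 / (2 * (A + 1))) with hδ
  have hδ0 : 0 < δ := lt_min (by positivity) (by positivity)
  set μ : ℝ := δ / (1 + (L + 1) * ‖v‖) with hμ
  have hμ0 : 0 < μ := by positivity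
  obtain ⟨γ, ⟨hγ0, hγ⟩, hrec⟩ := hp
  -- components of the orbit
  have hγc : Continuous γ := continuous_iff_continuousAt.2 fun t => (hγ t).continuousAt
  set τ : ℝ → ℝ := fun t => ∫ x in (0 : ℝ)..t, a (γ x) with hτ
  set σ : ℝ → ℝ := fun t => ∫ x in (0 : ℝ)..t, b (γ x) with hσ
  have hτd : ∀ t, HasDerivAt τ (a (γ t)) t := fun t =>
    (ha.continuous.comp hγc).integral_hasStrictDerivAt 0 t |>.hasDerivAt
  have hσd : ∀ t, HasDerivAt σ (b (γ t)) t := fun t =>
    (hb.continuous.comp hγc).integral_hasStrictDerivAt 0 t |>.hasDerivAt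
  have hτ0 : τ 0 = 0 := by simp [hτ]
  have hσ0 : σ 0 = 0 := by simp [hσ]
  have hγe : ∀ t, γ t = p + τ t • w + σ t • v := by
    have hd : ∀ t, HasDerivAt (fun t => γ t - (p + τ t • w + σ t • v)) 0 t := by
      intro t
      have h1 := (hγ t).fun_sub ((((hτd t).smul_const w).const_add p).fun_add
        ((hσd t).smul_const v))
      have e : X (γ t) - (a (γ t) • w + b (γ t) • v) = 0 := by rw [hXab, sub_self]
      rw [e] at h1
      exact h1
    intro t
    have := is_const_of_deriv_eq_zero (fun t => (hd t).differentiableAt)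
      (fun t => (hd t).deriv) t 0
    simp only [hγ0, hτ0, hσ0, zero_smul, add_zero, sub_self] at this
    exact sub_eq_zero.1 this
  have hσd' : ∀ t, HasDerivAt σ (a (γ t) * g (γ t)) t := fun t => by
    rw [← hba]; exact hσd t
  have hτlow : ∀ t, 0 ≤ t → a0 * t ≤ τ t := by
    intro t ht
    have hmono : MonotoneOn (fun t => τ t - a0 * t) (Ici 0) := by
      refine monotoneOn_of_deriv_nonneg (convex_Ici 0) ?_ ?_ ?_
      · exact fun t _ => ((hτd t).continuousAt.sub (by fun_prop)).continuousWithinAt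
      · exact fun t _ => ((hτd t).sub ((hasDerivAt_id t).const_mul a0)).differentiableAt.differentiableWithinAt
      · intro t _
        have h1 : HasDerivAt (fun t => τ t - a0 * t) (a (γ t) - a0 * 1) t :=
          (hτd t).fun_sub ((hasDerivAt_id' t).const_mul a0)
        rw [h1.deriv]
        have := ha0l (γ t)
        linarith
    have := hmono (mem_Ici.2 le_rfl) (mem_Ici.2 ht) ht
    simp only [hτ0, mul_zero, sub_zero] at this
    linarith
  -- the return
  obtain ⟨T, hT, m, hm⟩ := hrec μ hμ0 (max 1 (1 / a0))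
  have hT1 : 1 ≤ T := (le_max_left _ _).trans hT
  have hT0 : 0 < T := by linarith
  have hτT : 1 ≤ τ T := by
    have h1 := hτlow T hT0.le
    have h2 : 1 / a0 ≤ T := (le_max_right _ _).trans hT
    have h3 : 1 ≤ a0 * T := by
      rw [div_le_iff₀ ha0p] at h2
      linarith
    linarith
  set e : EuclideanSpace ℝ (Fin n) := γ T - (p + lat m) with he
  set u : EuclideanSpace ℝ (Fin n) := -((τ T)⁻¹ • e) with hu
  have hun : τ T * ‖u‖ = ‖e‖ := by
    rw [hu, norm_neg, norm_smul, norm_inv, Real.norm_eq_abs, abs_of_pos (by linarith)]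
    rw [mul_inv_cancel_left₀ (by linarith)]
  have hun' : ‖u‖ ≤ ‖e‖ := by
    rw [← hun]
    nlinarith [norm_nonneg u]
  obtain ⟨c, hc, S, hS, hST⟩ := sca_hit hL (G := G) (fun x => by simpa using hG x) ha0 hγe hτ0 hσ0
    hτd hσd' hT0 u (η := (L + 1) * μ) (by
      rw [hun]
      have h1 : (L : ℝ) * ‖e‖ ≤ L * μ := by gcongr
      have : (L : ℝ) * μ < (L + 1) * μ := by linarith
      linarith)
  set z : EuclideanSpace ℝ (Fin n) := u + c • v with hz
  have hzn : ‖z‖ ≤ δ := by
    have h1 : ‖z‖ ≤ μ + (L + 1) * μ * ‖v‖ := by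
      refine (norm_add_le _ _).trans ?_
      rw [norm_smul, Real.norm_eq_abs]
      have := mul_le_mul_of_nonneg_right hc (norm_nonneg v)
      have := hun'.trans hm.le
      linarith
    refine h1.trans (le_of_eq ?_)
    rw [hμ]
    field_simp
  -- the new field
  set Y : EuclideanSpace ℝ (Fin n) → EuclideanSpace ℝ (Fin n) := fun x => X x + a x • z with hY
  have hYf : TorusField r Y := by
    refine ⟨hX.smooth.add (ha.smul contDiff_const), fun x m => ?_⟩
    show X (x + lat m) + a (x + lat m) • z = X x + a x • z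
    rw [hX.periodic, hap]
  have hYe : ∀ x, Y x = a x • (w + u) + (a x * (g x + c)) • v := by
    intro x
    show X x + a x • z = _
    rw [hXab, hz, hba, mul_add, add_smul, smul_add, smul_add, smul_smul]
    abel
  have hYn : ∀ x, Y x ≠ 0 := by
    intro x h0
    have h1 : X x = -(a x • z) := eq_neg_of_add_eq_zero_left h0
    have h2 : ‖X x‖ ≤ A * δ := by
      rw [h1, norm_neg, norm_smul]
      exact mul_le_mul (hA x) hzn (norm_nonneg _) hA0
    have h3 := hx0l x
    have h4 : A * δ < x0 := by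
      have h5 : δ ≤ x0 / (2 * (A + 1)) := min_le_right _ _
      have h6 : A * δ ≤ A * (x0 / (2 * (A + 1))) := mul_le_mul_of_nonneg_left h5 hA0
      have h7 : A * (x0 / (2 * (A + 1))) < x0 := by
        rw [mul_div_assoc', div_lt_iff₀ (by positivity)]
        nlinarith
      linarith
    linarith
  refine ⟨Y, hYf, ?_, hYn p, ?_⟩
  · intro j hj x
    have e1 : (fun x => Y x - X x) = (ContinuousLinearMap.toSpanSingleton ℝ z) ∘ a := by
      funext x
      show X x + a x • z - X x = a x • z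
      abel
    rw [e1]
    have h1 := (ContinuousLinearMap.toSpanSingleton ℝ z).norm_iteratedFDeriv_comp_left
      (f := a) (x := x) (N := r) (n := j) ha.contDiffAt (le_trans (by exact_mod_cast hj) hs)
    rw [ContinuousLinearMap.norm_toSpanSingleton] at h1
    have h2 := hD j hj x
    have h3 : ‖z‖ * ‖iteratedFDeriv ℝ j a x‖ ≤ δ * D :=
      mul_le_mul hzn h2 (norm_nonneg _) hδ0.le
    have h4 : δ * D ≤ ε / (2 * D) * D := mul_le_mul_of_nonneg_right (min_le_left _ _) hD0.le
    have h5 : ε / (2 * D) * D = ε / 2 := by field_simp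
    linarith
  -- the closed orbit
  · have hSlip : LipschitzWith (Real.toNNReal (G + |c|)) S := by
      refine lipschitzWith_of_nnnorm_deriv_le (fun t => (hS.2 t).differentiableAt) fun t => ?_
      rw [(hS.2 t).deriv, ← NNReal.coe_le_coe, coe_nnnorm, Real.coe_toNNReal _ (by
        have := (norm_nonneg _).trans (hG 0)
        positivity)]
      refine (norm_add_le _ _).trans ?_
      rw [Real.norm_eq_abs c]
      have := hG (p + t • (w + u) + S t • v)
      linarith
    obtain ⟨K', hpath⟩ := path_lip hLa p (w + u) v hSlip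
    obtain ⟨θ, hθ0, hθ⟩ := exists_global hpath (B := A) (fun θ => hA _) 0
    set y : ℝ → EuclideanSpace ℝ (Fin n) := fun t => p + θ t • (w + u) + S (θ t) • v with hy
    have hy0 : y 0 = p := by
      show p + θ 0 • (w + u) + S (θ 0) • v = p
      rw [hθ0, hS.1]
      simp
    have hyd : ∀ t, HasDerivAt y (Y (y t)) t := by
      intro t
      have h1 := ((hθ t).smul_const (w + u)).const_add p
      have h2 := (((hS.2 (θ t)).comp t (hθ t))).smul_const v
      have h3 := h1.fun_add h2
      have e1 : Y (y t) = a (p + θ t • (w + u) + S (θ t) • v) • (w + u) +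
          ((g (p + θ t • (w + u) + S (θ t) • v) + c) *
            a (p + θ t • (w + u) + S (θ t) • v)) • v := by
        rw [hYe, mul_comm]
      rw [e1]
      exact h3
    have hθlow : ∀ t, 0 ≤ t → a0 * t ≤ θ t := by
      intro t ht
      have hmono : MonotoneOn (fun t => θ t - a0 * t) (Ici 0) := by
        refine monotoneOn_of_deriv_nonneg (convex_Ici 0) ?_ ?_ ?_
        · exact fun t _ => ((hθ t).continuousAt.sub (by fun_prop)).continuousWithinAt
        · exact fun t _ => ((hθ t).sub ((hasDerivAt_id t).const_mul a0)).differentiableAt.differentiableWithinAt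
        · intro t _
          have h1 : HasDerivAt (fun t => θ t - a0 * t)
              (a (p + θ t • (w + u) + S (θ t) • v) - a0 * 1) t :=
            (hθ t).fun_sub ((hasDerivAt_id' t).const_mul a0)
          rw [h1.deriv]
          have := ha0l (p + θ t • (w + u) + S (θ t) • v)
          linarith
      have := hmono (mem_Ici.2 le_rfl) (mem_Ici.2 ht) ht
      simp only [hθ0, mul_zero, sub_zero] at this
      linarith
    have hθc : Continuous θ := continuous_iff_continuousAt.2 fun t => (hθ t).continuousAt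
    obtain ⟨T', hT'mem, hT'⟩ : ∃ T' ∈ Icc 0 (τ T / a0), θ T' = τ T := by
      have hTT : 0 ≤ τ T / a0 := div_nonneg (by linarith) ha0p.le
      have h1 := intermediate_value_Icc hTT (f := θ) hθc.continuousOn
      have h2 : τ T ≤ θ (τ T / a0) := by
        have := hθlow _ hTT
        rwa [mul_div_cancel₀ _ ha0p.ne'] at this
      obtain ⟨T', h3, h4⟩ := h1 ⟨by rw [hθ0]; linarith, h2⟩
      exact ⟨T', h3, h4⟩
    have hT'0 : 0 < T' := by
      rcases hT'mem.1.lt_or_eq with h | h
      · exact h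
      · exfalso
        rw [← h, hθ0] at hT'
        linarith
    have hyT : y T' = p + lat m := by
      show p + θ T' • (w + u) + S (θ T') • v = _
      rw [hT', hST, smul_add, hu, smul_neg, smul_inv_smul₀ (by linarith)]
      have h1 := hγe T
      have h2 : e = γ T - (p + lat m) := he
      rw [h1] at h2
      rw [h2]
      abel
    refine ⟨y, ⟨hy0, hyd⟩, T', hT'0, m, fun t => ?_⟩
    obtain ⟨K, hK⟩ := per_lip (hYf.smooth.of_le hr) hYf.periodic
    have h1 : ∀ t, HasDerivAt (fun t => y (t + T') - lat m) (Y (y (t + T') - lat m)) t := by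
      intro t
      have h2 := (hyd (t + T')).comp_add_const t T'
      have h3 : Y (y (t + T') - lat m) = Y (y (t + T')) := by
        have := hYf.periodic (y (t + T') - lat m) m
        rw [sub_add_cancel] at this
        exact this.symm
      rw [h3]
      exact h2.sub_const _
    have h4 := sol_unique hK h1 hyd (by simp only [zero_add, hyT, hy0]; abel)
    have h5 := congrFun h4 t
    rw [← h5]
    abel

end Clo
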